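import Mathlib
import Pool.Agent.H568R2.Defs
import Pool.Agent.W980.GC.Comp

/-!
A parallel machine with `n choose k` processors that finds out in one step whether there is a
`k`-clique.
-/

set_option linter.unusedSectionVars false

namespace Pool.Agent.W980.GC

open Finset DomAC0 Pool.Agent.W964.Pram

/-- The states. -/
inductive Cst (n k : ℕ) : Type
  | look (S : {S : Finset (Fin n) // S.card = k}) : Cst n k
  | found (b : Bool) : Cst n k
  | idle : Cst n k

/-- The pairs inside a set. -/
noncomputable def prs {n : ℕ} (S : Finset (Fin n)) : Finset (Pairs n) :=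
  univ.filter (fun p : Pairs n => p.1.1 ∈ S ∧ p.1.2 ∈ S)

lemma prs_card {n : ℕ} (S : Finset (Fin n)) : (prs S).card ≤ S.card ^ 2 := by
  rw [sq, ← Finset.card_product]
  refine Finset.card_le_card_of_injOn (fun p : Pairs n => p.1) ?_ ?_
  · intro p hp
    have := (Finset.mem_filter.1 (Finset.mem_coe.1 hp)).2
    exact Finset.mem_coe.2 (Finset.mem_product.2 this)
  · intro p _ p' _ h
    exact Subtype.ext h

/-- The machine: the processor of a set of `k` vertices looks for a missing edge. -/
@[reducible] noncomputable def clqMach (n k : ℕ)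
    (e : Fin (n.choose k) ≃ {S : Finset (Fin n) // S.card = k}) :
    Machine (Pairs n) (n.choose k) where
  Q := Cst n k
  A := Unit
  V := Bool
  bit := id
  blank := false
  start := fun p => Cst.look (e p)
  query := fun q => match q with
    | .look S => (prs S.1).toList.map Sum.inl
    | _ => []
  test := fun _ v => !v
  next := fun q o => match q with
    | .look _ => .found o.isNone
    | _ => .idle
  write := fun q => match q with
    | .found true => some (Sum.inr (), true)
    | _ => none
  out := Sum.inr ()
  accept := id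

lemma clqMach_lists (n k : ℕ) (e : Fin (n.choose k) ≃ {S : Finset (Fin n) // S.card = k}) :
    (clqMach n k e).Lists (k ^ 2) := by
  intro q
  cases q with
  | look S =>
    show ((prs S.1).toList.map Sum.inl).length ≤ k ^ 2
    rw [List.length_map, Finset.length_toList]
    refine (prs_card S.1).trans (le_of_eq ?_)
    rw [S.2]
  | _ => exact Nat.zero_le _

section Run
variable {n k : ℕ} (e : Fin (n.choose k) ≃ {S : Finset (Fin n) // S.card = k})
  (G : SimpleGraph (Fin n))

open Classical in
lemma find_none (S : {S : Finset (Fin n) // S.card = k})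
    (mem : Pairs n ⊕ Unit → Bool) (hm : ∀ p, mem (Sum.inl p) = adjBits G p) :
    ((clqMach n k e).find (Cst.look S) mem).isNone = true ↔ G.IsNClique k S.1 := by
  have h1 : ((clqMach n k e).find (Cst.look S) mem).isNone = true ↔
      ∀ p ∈ prs S.1, adjBits G p = true := by
    rw [Option.isNone_iff_eq_none]
    unfold Machine.find
    rw [List.findSome?_eq_none_iff]
    constructor
    · intro h p hp
      have h2 := h (Sum.inl p) (List.mem_map.2 ⟨p, Finset.mem_toList.2 hp, rfl⟩)
      by_contra h3
      have h4 : adjBits G p = false := by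
        cases hb : adjBits G p
        · rfl
        · exact absurd hb h3
      have h5 : (!(mem (Sum.inl p))) = true := by rw [hm, h4]; rfl
      rw [if_pos h5] at h2
      cases h2
    · intro h c hc
      obtain ⟨p, hp, rfl⟩ := List.mem_map.1 hc
      have h2 := h p (Finset.mem_toList.1 hp)
      have h5 : ¬ (!(mem (Sum.inl p))) = true := by rw [hm, h2]; decide
      rw [if_neg h5]
  rw [h1, SimpleGraph.isNClique_iff, SimpleGraph.isClique_iff]
  constructor
  · intro h
    refine ⟨?_, S.2⟩
    intro u hu v hv huv
    rcases lt_or_gt_of_ne huv with h2 | h2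
    · have h3 := h ⟨(u, v), h2⟩ (Finset.mem_filter.2 ⟨Finset.mem_univ _, hu, hv⟩)
      unfold adjBits at h3
      exact of_decide_eq_true h3
    · have h3 := h ⟨(v, u), h2⟩ (Finset.mem_filter.2 ⟨Finset.mem_univ _, hv, hu⟩)
      unfold adjBits at h3
      exact (of_decide_eq_true h3 : G.Adj v u).symm
  · rintro ⟨h, _⟩ p hp
    obtain ⟨h2, h3⟩ := (Finset.mem_filter.1 hp).2
    unfold adjBits
    exact decide_eq_true (h h2 h3 p.2.ne)

open Classical in
lemma clq_st1 (p : Fin (n.choose k)) : ((clqMach n k e).run (adjBits G) 1).1 p =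
    Cst.found (decide (G.IsNClique k (e p).1)) := by
  have h : ((clqMach n k e).run (adjBits G) 1).1 p = (clqMach n k e).next (Cst.look (e p))
      ((clqMach n k e).find (Cst.look (e p)) ((clqMach n k e).run (adjBits G) 0).2) := rfl
  rw [h]
  show Cst.found ((clqMach n k e).find (Cst.look (e p))
    ((clqMach n k e).run (adjBits G) 0).2).isNone = _
  congr 1
  rw [Bool.eq_iff_iff, find_none e G (e p) _ (fun p => rfl), decide_eq_true_eq]

open Classical in
lemma clq_mem1 : ((clqMach n k e).run (adjBits G) 1).2 (Sum.inr ()) = true ↔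
    ¬ G.CliqueFree k := by
  have h : ((clqMach n k e).run (adjBits G) 1).2 (Sum.inr ()) =
    ((List.finRange (n.choose k)).findSome? (fun p => (clqMach n k e).wr (Sum.inr ())
      (((clqMach n k e).run (adjBits G) 1).1 p))).getD false := rfl
  rw [h]
  have hw : ∀ p, (clqMach n k e).wr (Sum.inr ()) (((clqMach n k e).run (adjBits G) 1).1 p) =
      if G.IsNClique k (e p).1 then some true else none := by
    intro p
    rw [clq_st1]
    by_cases hc : G.IsNClique k (e p).1
    · rw [if_pos hc, decide_eq_true hc]
      exact wr_eq (M := clqMach n k e) (c := Sum.inr ()) (q := Cst.found true)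
        (w := (Sum.inr (), true)) rfl rfl
    · rw [if_neg hc, decide_eq_false hc]
      exact wr_no rfl
  by_cases hG : G.CliqueFree k
  · have : (List.finRange (n.choose k)).findSome? (fun p => (clqMach n k e).wr (Sum.inr ())
      (((clqMach n k e).run (adjBits G) 1).1 p)) = none := by
      rw [List.findSome?_eq_none_iff]
      intro p _
      rw [hw]
      exact if_neg (hG _)
    rw [this]
    constructor
    · intro h'
      cases h'
    · intro h'
      exact absurd hG h'
  · have : (List.finRange (n.choose k)).findSome? (fun p => (clqMach n k e).wr (Sum.inr ())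
      (((clqMach n k e).run (adjBits G) 1).1 p)) = some true := by
      apply fs_one
      · unfold SimpleGraph.CliqueFree at hG
        push Not at hG
        obtain ⟨S, hS⟩ := hG
        have hcard : S.card = k := (SimpleGraph.isNClique_iff _).1 hS |>.2
        refine ⟨e.symm ⟨S, hcard⟩, List.mem_finRange _, ?_⟩
        rw [hw, Equiv.apply_symm_apply, if_pos hS]
      · intro p _ w hp
        rw [hw] at hp
        split_ifs at hp with h2
        exact (Option.some.inj hp).symm
    rw [this]
    exact ⟨fun _ => hG, fun _ => rfl⟩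

lemma clq_late (t : ℕ) : (∀ p, ∃ q, ((clqMach n k e).run (adjBits G) (t + 1)).1 p = q ∧
    (q = Cst.idle ∨ ∃ b, q = Cst.found b)) ∧
    ((clqMach n k e).run (adjBits G) (t + 1)).2 (Sum.inr ()) =
      ((clqMach n k e).run (adjBits G) 1).2 (Sum.inr ()) := by
  classical
  induction t with
  | zero => exact ⟨fun p => ⟨_, clq_st1 e G p, Or.inr ⟨_, rfl⟩⟩, rfl⟩
  | succ t ih =>
    obtain ⟨h1, h2⟩ := ih
    have hst : ∀ p, ((clqMach n k e).run (adjBits G) (t + 1 + 1)).1 p = Cst.idle := by
      intro p
      have h : ((clqMach n k e).run (adjBits G) (t + 1 + 1)).1 p = (clqMach n k e).next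
          (((clqMach n k e).run (adjBits G) (t + 1)).1 p)
          ((clqMach n k e).find (((clqMach n k e).run (adjBits G) (t + 1)).1 p)
            ((clqMach n k e).run (adjBits G) (t + 1)).2) := rfl
      obtain ⟨q, hq, h3⟩ := h1 p
      rw [h, hq]
      rcases h3 with rfl | ⟨b, rfl⟩ <;> rfl
    refine ⟨fun p => ⟨_, hst p, Or.inl rfl⟩, ?_⟩
    have h : ((clqMach n k e).run (adjBits G) (t + 1 + 1)).2 (Sum.inr ()) =
      ((List.finRange (n.choose k)).findSome? (fun p => (clqMach n k e).wr (Sum.inr ())
        (((clqMach n k e).run (adjBits G) (t + 1 + 1)).1 p))).getD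
          (((clqMach n k e).run (adjBits G) (t + 1)).2 (Sum.inr ())) := rfl
    have h3 : (List.finRange (n.choose k)).findSome? (fun p => (clqMach n k e).wr (Sum.inr ())
        (((clqMach n k e).run (adjBits G) (t + 1 + 1)).1 p)) = none := by
      rw [List.findSome?_eq_none_iff]
      intro p _
      rw [hst]
      exact wr_no rfl
    rw [h, h3]
    exact h2

end Run

/-- The upper bound. -/
theorem clique_upperM (n k : ℕ) : ∃ M : Machine (Pairs n) (n.choose k), M.Lists (k ^ 2) ∧
    ∀ T : ℕ, 1 ≤ T → ∀ G : SimpleGraph (Fin n),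
      M.answer T (adjBits G) = true ↔ ¬ G.CliqueFree k := by
  classical
  obtain ⟨e⟩ : Nonempty (Fin (n.choose k) ≃ {S : Finset (Fin n) // S.card = k}) := by
    refine ⟨(Fintype.equivFinOfCardEq ?_).symm⟩
    rw [Fintype.card_finset_len, Fintype.card_fin]
  refine ⟨clqMach n k e, clqMach_lists n k e, fun T hT G => ?_⟩
  obtain ⟨t, rfl⟩ : ∃ t, T = t + 1 := ⟨T - 1, by omega⟩
  have h1 : (clqMach n k e).answer (t + 1) (adjBits G) =
      ((clqMach n k e).run (adjBits G) (t + 1)).2 (Sum.inr ()) := rfl
  rw [h1, (clq_late e G t).2, clq_mem1]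

end Pool.Agent.W980.GC
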